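import Pool.Agent.H78.OX.Targets

/-!
# FXD: the encrypted answers of the stage solve the recursion
-/

set_option autoImplicit false

namespace Pool.Agent.H65.OX

open Finset Filter Pool.Agent.H6.NB Pool.Agent.H70.OQ Pool.Agent.H70.EH Pool.Agent.H78.XQ
  Pool.Agent.H78.OX

theorem fxd (hCLX : Pool.Agent.H78.OX.T_CLX) (hLKX : T_LKX) : T_FXD := by
  classical
  intro A hA J n a hn σ₀ O₀ O h0 T κ P z hO D hD s
  conv_lhs => rw [hO (key s.1)]
  have h1 : sdx J n (2 ^ a) σ₀ T κ P z (key s.1) = κ s := by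
    unfold sdx
    rw [(hCLX J n (2 ^ a) σ₀).2.1 s]
    rfl
  have h2 : (∃ s', key s.1 = key s' ∧ A s' O) ↔
      accG D P s (Sum.elim T z) (fun s => O (key s.1)) = true := by
    rw [← hD s (Sum.elim T z) (fun s => O (key s.1)) P]
    have h3 : (∃ s', key s.1 = key s' ∧ A s' O) ↔ A s.1 O := by
      constructor
      · rintro ⟨s', hs', h⟩
        have : s.1 = s' := by
          unfold key at hs'
          simpa using hs'
        rw [this]; exact h
      · intro h
        exact ⟨s.1, rfl, h⟩
    rw [h3]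
    refine hA s.1 _ _ fun w hw => hLKX J A n (2 ^ a) σ₀ O₀ O T κ P z hA hn h0 hO w ?_
    have h4 : w.length ≤ w.length ^ 2 := Nat.le_self_pow (by norm_num) _
    exact h4.trans (hw.trans s.2.2.le)
  rw [h1, Bool.xor_comm]
  congr 1
  rcases hb : accG D P s (Sum.elim T z) (fun s => O (key s.1)) with _ | _
  · rw [decide_eq_false_iff_not, h2, hb]; simp
  · rw [decide_eq_true_iff, h2, hb]

end Pool.Agent.H65.OX
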