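import Pool.Agent.H78.OX.Targets
import Pool.Agent.H48.OQ.FMG

/-!
# WFX: the formula of a machine
-/

set_option autoImplicit false

namespace Pool.Agent.H65.OX

open Finset Filter Pool.Agent.H6.NB Pool.Agent.H70.OQ Pool.Agent.H70.EH Pool.Agent.H78.XQ
  Pool.Agent.H78.OX Pool.Agent.H48.OQ.FMG

open Classical in
theorem wfx (hLWX : T_LWX) (hFIS : Pool.Agent.H6.NB.T_FIS) : T_WFX := by
  intro J' J n a t o W hn hm s hs
  obtain ⟨Ws, hW1, hW2⟩ := hFIS.1 (n ^ W.c + W.c)
  have hL : (List.replicate n false).length = n := List.length_replicate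
  refine ⟨fun y => decide (Alt (fun w => w.length ≤ n ^ W.c + W.c) true J fun ws =>
    (W.tree (List.replicate n false) ws).eval (fun w => y (clx J' n (2 ^ a) o w)) = true),
    ?_, ?_, ?_⟩
  · exact (alt_fm (V := Cgx J' n (2 ^ a)) (fun w => w.length ≤ n ^ W.c + W.c) t Ws
      (hW1.trans (Nat.pow_le_pow_right (by norm_num) hm)) hW2 J
      (fun ws y => (W.tree (List.replicate n false) ws).eval
        (fun w => y (clx J' n (2 ^ a) o w)) = true) (by
        intro ws hl hws
        refine ⟨cv (clx J' n (2 ^ a) o) (W.tree (List.replicate n false) ws), ?_, fun y => ?_⟩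
        · rw [cv_depth]
          have := W.depth_le (List.replicate n false) ws hl (by rw [hL]; exact hws)
          rw [hL] at this
          omega
        · rw [cv_eval])).1
  · intro y y' hy
    simp only [decide_eq_decide]
    refine alt_congr _ J true _ _ (fun ws hl hws => ?_)
    have hsh := W.short (List.replicate n false) ws hl (by rw [hL]; exact hws)
    rw [hL] at hsh
    rw [evc (W.tree (List.replicate n false) ws) (n ^ W.c + W.c)
      (fun w => y (clx J' n (2 ^ a) o w)) (fun w => y' (clx J' n (2 ^ a) o w)) hsh]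
    intro w hw
    exact hy _ (hLWX J' n a o s w (n ^ W.c + W.c) hn hs hw)
  · intro y
    rw [decide_eq_true_eq]
    unfold Machine.lang
    simp only [Set.mem_ofPred_eq, hL]

end Pool.Agent.H65.OX
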